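import Pool.Agent.Q24.SG.Bad

/-!
# The last inequality of Gal's conjecture for flag homology spheres with few bad links

Let `d = 2 m + 2` and let the flag complex of the finite graph `G` be a real homology `(d-1)`-sphere (the cliques of
`G` are the faces). Its number `γ_(d/2)` is not negative (the Charney-Davis conjecture) if the links of all vertices
outside a set `B` are in the class `AR (2 m + 1)`, where `B` satisfies a condition on the number of its vertices, for
example `|B| ≤ 3 m + 5`. The links of the vertices of `B` are arbitrary. The class `AR n` contains all barycentric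
subdivisions of triangulated `(n-1)`-spheres, the order complexes of Gorenstein* posets and more generally the class
`AQ n` of the starting files, and is closed under full subcomplexes, joins, gluing and other operations listed in its
definition.

The proof uses the theorem on the `ℓ²`-homology of the Davis complex of the right-angled Coxeter group of `G`
(`Pool.Agent.Q24.SG`, starting library `Pool.Agent.TH652.Dual7`).
-/

set_option autoImplicit false

namespace Pool.Agent.Results.MP_19e880_co.CharneyDavisFewBadLinks

open Pool.Agent.W907.SG Pool.Agent.TH652.Above Pool.Agent.Q24.SG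

open Classical in
/-- The numbers `γ i`, `i ≤ d / 2`, are the entries of the `γ`-vector of the flag complex of `G`, of dimension `d - 1`:
`∑_T (t - 1)^(d - |T|) = ∑_i γ_i t^i (1 + t)^(d - 2 i)`, the first sum over all cliques `T` (with the empty one). -/
def IsGammaVector {V : Type} [Fintype V] (d : ℕ) (G : SimpleGraph V) (γ : ℕ → ℤ) : Prop :=
  ∀ t : ℤ, ∑ T : Finset V, (if G.IsClique (T : Set V) then (t - 1) ^ (d - T.card) else 0) =
    ∑ i ∈ Finset.range (d / 2 + 1), γ i * t ^ i * (1 + t) ^ (d - 2 * i)

/-- Let the flag complex of `G` be a real homology sphere of dimension `2 m + 1`, let `B` be a set of vertices such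
that `|B| < 3 (m + 2) + |{common neighbours of T in B}|` for all cliques `T ⊆ B` with `m + 2` elements (for instance
any set with at most `3 m + 5` elements), and suppose that the links of all vertices outside `B` are in the class
`AR (2 m + 1)`. Then the last entry `γ (m + 1)` of the `γ`-vector is not negative. -/
theorem result : ∀ (m : ℕ) (V : Type) [Fintype V] [LinearOrder V] (G : SimpleGraph V), HSph (2 * m + 2) G →
    ∀ B : Set V,
    (∀ T : Finset V, G.IsClique (T : Set V) → (T : Set V) ⊆ B → T.card = m + 2 →
      B.ncard < 3 * (m + 2) + {u : V | u ∈ B ∧ ∀ t ∈ T, G.Adj t u}.ncard) →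
    (∀ v, v ∉ B → AR (2 * m + 1) (G.induce (G.neighborSet v))) →
    ∀ γ : ℕ → ℤ, IsGammaVector (2 * m + 2) G γ → 0 ≤ γ (m + 1) := by
  classical
  intro m V _ _ G hS B hB hl γ hγ
  have hA : AR (2 * m + 2) G := AR.loc G B (AR_fewOn (m := m + 1) hB) hl
  have h1 : 0 ≤ (-1 : ℚ) ^ (m + 1) * chiW G := chi_sign G fun i hi => singer_AR hS hA i (by omega)
  have h2 := hγ (-1)
  have e1 : (2 * m + 2) / 2 = m + 1 := by omega
  rw [e1, Finset.sum_eq_single (m + 1)] at h2
  · have e2 : 2 * m + 2 - 2 * (m + 1) = 0 := by omega
    rw [e2, pow_zero, mul_one] at h2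
    have h3 : ((∑ T : Finset V, (if G.IsClique (T : Set V) then ((-1 : ℤ) - 1) ^ (2 * m + 2 - T.card) else 0) : ℤ) : ℚ)
        = 2 ^ (2 * m + 2) * chiW G := by
      unfold chiW
      rw [Finset.mul_sum]
      push_cast
      refine Finset.sum_congr rfl fun T _ => ?_
      by_cases hT : G.IsClique (T : Set V)
      · rw [if_pos hT, if_pos hT]
        have h4 := Pool.Agent.TH652.Dual.no_big hS hT
        have h5 : (-1 - 1 : ℚ) ^ (2 * m + 2) = (-1 - 1) ^ (2 * m + 2 - T.card) * (-1 - 1) ^ T.card := by
          rw [← pow_add]
          congr 1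
          omega
        have h6 : (-1 - 1 : ℚ) ^ (2 * m + 2) = 2 ^ (2 * m + 2) := by
          have e3 : 2 * m + 2 = 2 * (m + 1) := by ring
          rw [e3, pow_mul, pow_mul]
          norm_num
        rw [← h6, h5, mul_assoc, ← mul_pow]
        norm_num
      · rw [if_neg hT, if_neg hT, mul_zero]
    have h4 : (2 : ℚ) ^ (2 * m + 2) * chiW G = (γ (m + 1) : ℚ) * (-1) ^ (m + 1) := by
      rw [← h3]
      exact_mod_cast h2
    have h5 : (γ (m + 1) : ℚ) = 2 ^ (2 * m + 2) * ((-1) ^ (m + 1) * chiW G) := by
      have h6 : ((-1 : ℚ) ^ (m + 1)) * (-1) ^ (m + 1) = 1 := by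
        rw [← mul_pow]; norm_num
      calc (γ (m + 1) : ℚ) = (γ (m + 1) : ℚ) * ((-1) ^ (m + 1) * (-1) ^ (m + 1)) := by rw [h6, mul_one]
        _ = (2 ^ (2 * m + 2) * chiW G) * (-1) ^ (m + 1) := by rw [h4]; ring
        _ = _ := by ring
    have h6 : (0 : ℚ) ≤ (γ (m + 1) : ℚ) := by
      rw [h5]
      positivity
    exact_mod_cast h6
  · intro i hi hne
    have h3 : i ≤ m + 1 := by
      rw [Finset.mem_range] at hi; omega
    have h4 : 2 * m + 2 - 2 * i ≠ 0 := by omega
    have e4 : (1 + (-1 : ℤ)) = 0 := by norm_num
    rw [e4, zero_pow h4, mul_zero]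
  · intro h
    exact absurd (Finset.mem_range.2 (by omega)) h

end Pool.Agent.Results.MP_19e880_co.CharneyDavisFewBadLinks
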