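import Pool.Agent.Q250.GL.Main

/-!
# Linear functionals of the gamma-vector: bounded below up to `o(f₀)` means minimal at the cross-polytope

Let `ℓ(S) = ∑ a i γ_i(S)` be a real linear functional of the gamma-vector of flag homology `d`-spheres `S` over a field.
The following are equivalent:

* `ℓ(S) ≥ - o(f₀(S))`, that is: for every `ε > 0` there is `C` with `ℓ(S) ≥ - ε f₀(S) - C` for all `S`;
* `ℓ(S) ≥ a 0` for all `S`, the value for the boundary of the cross-polytope;
* `2 ℓ(S) ≥ ℓ(lk v) + ℓ(lk u)` for all `S` and all pairs of vertices `v`, `u` of `S` which are not joined by an edge.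

So `γ_i ≥ 0` holds for all flag homology `d`-spheres if and only if `γ_i ≥ - o(f₀)` there, and then the gamma-numbers
satisfy `2 γ_i(S) ≥ γ_i(lk v) + γ_i(lk u)`.  Moreover a bound `- o(f₀ ^ (j + 1))` for `γ_(i+j)` in dimension `d + 2 j` is
enough for `γ_i ≥ 0` in dimension `d`.

Proof.  The double of `S` along the link of a vertex `v` (two copies of `S - v` glued along the link of `v`) is again a
flag homology sphere, with gamma-vector `2 γ(S) - γ(lk v)`; a vertex `u` not joined to `v` has two copies in it which are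
not joined, with the same link as before.  Iterating, and taking joins with pentagons (whose iterated doubles are the
joins with long polygons), gives flag homology spheres with about `2 ^ m f₀(S)` vertices and with gamma polynomial
`(2 ^ m (2 γ(S) - γ(lk v) - γ(lk u)) + γ(lk u)) (1 + 2 ^ (m+1) t) ^ j`.
-/

set_option autoImplicit false

namespace Pool.Agent.Results.MP_19e880_co.CrossPolytopeDichotomy

open Pool.Agent.W497.FS Pool.Agent.Q250.GL

theorem result (k : Type) [Field k] (d : ℕ) :
    -- linear functionals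
    (∀ a : ℕ → ℝ,
      [AlmostNonneg k (d + 1) 1 a, CrossMin k (d + 1) 0 a, TwoVert k d 0 a].TFAE ∧
      ∀ j, AlmostNonneg k (d + 1 + 2 * j) (j + 1) a → CrossMin k (d + 1) j a ∧ TwoVert k d j a) ∧
    -- the inequalities of Gal's conjecture
    (∀ i j : ℕ, 1 ≤ i → i ≤ (d + 1) / 2 →
      (∀ ε : ℝ, 0 < ε → ∃ C : ℝ, ∀ (n : ℕ) (T : Finset (Finset (Fin n))) (γ : ℕ → ℤ),
        IsFlagSphere k (d + 1 + 2 * j) T → IsGamma (d + 1 + 2 * j) T γ →
          -(ε * (numVert T : ℝ) ^ (j + 1)) - C ≤ γ (i + j)) →
      ∀ (n : ℕ) (S : Finset (Finset (Fin n))) (γ : ℕ → ℤ), IsFlagSphere k (d + 1) S → IsGamma (d + 1) S γ →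
        0 ≤ γ i) :=
  ⟨fun a => ⟨(main k d a).2, (main k d a).1⟩, fun i j hi hid h => main_gal k d i j hi hid h⟩

end Pool.Agent.Results.MP_19e880_co.CrossPolytopeDichotomy
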