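import Mathlib
import Pool.Agent.Q222.GJ.Join

/-!
# Gal's conjecture is equivalent to a power saving over the trivial bound

A finite complex on the vertex set `V` is a set `S : Finset (Finset V)` of faces.  `𝒮 V S d` is any class of complexes `S`
of dimension at most `d - 1` which is closed under joins with polygons (cycles with at least five vertices); for example
the flag homology `(d - 1)`-spheres over a field (joins of flag complexes are flag, and joins of homology spheres are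
homology spheres), the flag triangulations of spheres, or the least such class that contains given complexes.
`IsGamma d S g` says that `g = ∑ γ_i X^i` is the gamma polynomial of `S`.  `v(S)` is the number of vertices.

The trivial bound for flag homology spheres is `|γ_I(S)| ≤ C v(S)^I`, with a constant `C` which depends on the dimension.

**Theorem.**  (1) Let `s`, `C` be real numbers, `0 ≤ s < I - K`.  If `γ_I(S) ≥ - C v(S)^s` for all members `S` of the
class of dimension `2 I + e - 1`, then `γ_i(S) ≥ 0` for all `i ≤ K` and all members `S` of the class of dimension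
`2 i + e - 1`.

So ONE lower bound, in one dimension and for one entry of the gamma vector, which saves more than the power `v^K`,
proves the inequalities of Gal's conjecture with the same `e = d - 2 i` for all `i ≤ K`.

(2) For every `e`: `γ_i(S) ≥ 0` for all `i` and all members `S` of dimension `2 i + e - 1` if and only if for every `K`
there are `I` and real numbers `s`, `C` with `0 ≤ s < I - K` such that `γ_I(S) ≥ - C v(S)^s` for all members `S` of
dimension `2 I + e - 1`.

(3) In particular this holds if, for some `θ < 1`, there are arbitrarily large `I` and numbers `C_I` with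
`γ_I(S) ≥ - C_I v(S)^{θ I}` for all members `S` of dimension `2 I + e - 1`.

`e = 0` is the Charney-Davis conjecture; Gal's conjecture for the class is the conjunction over all `e ≥ 0`.

Proof.  The polygon with `c + 4` vertices has the gamma polynomial `1 + c X`, and the gamma polynomial of a join is the
product.  If `γ_i(S) ≤ -1`, then for fixed `r` the join `S'` of `S` with `r` polygons with `c + 4` vertices has
`γ_{i + r}(S') = c^r γ_i(S) + O(c^{r - 1}) ≤ - c^r / 2` for large `c`, while `v(S') = v(S) + r (c + 4)`.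
-/

set_option autoImplicit false

namespace Pool.Agent.Results.MP_19e880_co.PowerSaving

open Pool.Agent.Q222.GJ Polynomial Filter Topology

theorem core (𝒮 : ∀ (V : Type) [Fintype V], Finset (Finset V) → ℕ → Prop)
    (hface : ∀ (V : Type) [Fintype V] (S : Finset (Finset V)) (d : ℕ), 𝒮 V S d → ∀ A ∈ S, A.card ≤ d)
    (hjoin : ∀ (V : Type) [Fintype V] (S : Finset (Finset V)) (d : ℕ), 𝒮 V S d → ∀ c : ℕ, 1 ≤ c →
      𝒮 (V ⊕ ZMod (c + 4)) (join S (polygon c)) (d + 2))
    {e K I : ℕ} {s C : ℝ} (hs0 : 0 ≤ s) (hs : s < (I : ℝ) - K)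
    (h : ∀ (V : Type) [Fintype V] (S : Finset (Finset V)) (g : ℤ[X]), 𝒮 V S (2 * I + e) →
      IsGamma (2 * I + e) S g → -(C * (Fintype.card V : ℝ) ^ s) ≤ g.coeff I)
    {i : ℕ} (hi : i ≤ K) {V : Type} [Fintype V] {S : Finset (Finset V)} {g : ℤ[X]} (hS : 𝒮 V S (2 * i + e))
    (hg : IsGamma (2 * i + e) S g) : 0 ≤ g.coeff i := by
  by_contra hcon
  push Not at hcon
  have hiI : i ≤ I := by
    have : (i : ℝ) ≤ K := by exact_mod_cast hi
    have : (i : ℝ) ≤ I := by linarith
    exact_mod_cast this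
  obtain ⟨r, rfl⟩ := Nat.exists_eq_add_of_le hiI
  have hr : s < r := by
    have : (i : ℝ) ≤ K := by exact_mod_cast hi
    push_cast at hs
    linarith
  have hr1 : 1 ≤ r := by
    by_contra h0
    have : r = 0 := by omega
    rw [this] at hr
    push_cast at hr
    linarith
  -- a bound for the coefficients
  obtain ⟨M, hM⟩ : ∃ M : ℤ, ∀ k, |g.coeff k| ≤ M := by
    refine ⟨∑ k ∈ g.support, |g.coeff k|, fun k => ?_⟩
    by_cases hk : k ∈ g.support
    · exact Finset.single_le_sum (f := fun k => |g.coeff k|) (fun _ _ => abs_nonneg _) hk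
    · rw [notMem_support_iff.1 hk, abs_zero]
      exact Finset.sum_nonneg fun _ _ => abs_nonneg _
  have hM0 : (0 : ℝ) ≤ M := by exact_mod_cast (abs_nonneg _).trans (hM 0)
  set v : ℝ := (Fintype.card V : ℝ) with hv
  have hv0 : 0 ≤ v := Nat.cast_nonneg _
  -- the inequality for the joins
  have key : ∀ c : ℕ, 1 ≤ c → (c : ℝ) ^ r ≤ r * ((1 + c) ^ (r - 1) * M) + |C| * (v + r * (c + 4)) ^ s := by
    intro c hc
    obtain ⟨V', _, S', h1, h2, h3⟩ := iterate 𝒮 hface c (fun V _ S d h => hjoin V S d h c hc) hS hg r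
    have e1 : 2 * i + e + 2 * r = 2 * (i + r) + e := by ring
    rw [e1] at h1 h3
    have h4 := h V' S' _ h1 h3
    have h5 := coeff_top hM i r (c := c)
    have h6 : ((g * (1 + Polynomial.C (c : ℤ) * X) ^ r).coeff (i + r) : ℝ) ≤
        (c : ℝ) ^ r * g.coeff i + r * ((1 + c) ^ (r - 1) * M) := by exact_mod_cast h5
    have h7 : (g.coeff i : ℝ) ≤ -1 := by
      have : g.coeff i ≤ -1 := by omega
      exact_mod_cast this
    have h8 : (c : ℝ) ^ r * g.coeff i ≤ (c : ℝ) ^ r * (-1) := mul_le_mul_of_nonneg_left h7 (by positivity)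
    have h9 : (Fintype.card V' : ℝ) = v + r * (c + 4) := by
      rw [h2]
      push_cast
      rfl
    rw [h9] at h4
    have h10 : C * (v + r * (c + 4)) ^ s ≤ |C| * (v + r * (c + 4)) ^ s :=
      mul_le_mul_of_nonneg_right (le_abs_self C) (Real.rpow_nonneg (by positivity) _)
    linarith
  -- the right side is smaller for large `c`
  set A : ℝ := r * (2 ^ (r - 1) * M) with hA
  set B : ℝ := |C| * (v + 5 * r) ^ s with hB
  have key2 : ∀ c : ℕ, 1 ≤ c → 1 ≤ A * (1 / (c : ℝ)) + B * (c : ℝ) ^ (-((r : ℝ) - s)) := by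
    intro c hc
    have hc1 : (1 : ℝ) ≤ c := by exact_mod_cast hc
    have hc0 : (0 : ℝ) < c := by linarith
    have h1 := key c hc
    have h2 : (1 + (c : ℝ)) ^ (r - 1) ≤ 2 ^ (r - 1) * (c : ℝ) ^ (r - 1) := by
      rw [← mul_pow]
      exact pow_le_pow_left₀ (by linarith) (by linarith) _
    have h3 : (v + r * ((c : ℝ) + 4)) ^ s ≤ (v + 5 * r) ^ s * (c : ℝ) ^ s := by
      rw [← Real.mul_rpow (by positivity) (by positivity)]
      refine Real.rpow_le_rpow (by positivity) ?_ hs0
      have : (0 : ℝ) ≤ r := Nat.cast_nonneg _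
      nlinarith
    have h4 : (c : ℝ) ^ r ≤ A * (c : ℝ) ^ (r - 1) + B * (c : ℝ) ^ s := by
      refine h1.trans (add_le_add ?_ ?_)
      · rw [hA]
        calc (r : ℝ) * ((1 + (c : ℝ)) ^ (r - 1) * M) ≤ r * (2 ^ (r - 1) * (c : ℝ) ^ (r - 1) * M) := by gcongr
          _ = r * (2 ^ (r - 1) * M) * (c : ℝ) ^ (r - 1) := by ring
      · rw [hB, mul_assoc]
        gcongr
    have hcr : (0 : ℝ) < (c : ℝ) ^ r := by positivity
    have e1 : (c : ℝ) ^ (r - 1) = (c : ℝ) ^ r * (1 / c) := by
      obtain ⟨q, rfl⟩ := Nat.exists_eq_add_of_le hr1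
      rw [Nat.add_sub_cancel_left, add_comm 1 q, pow_succ]
      field_simp
    have e2 : (c : ℝ) ^ s = (c : ℝ) ^ r * (c : ℝ) ^ (-((r : ℝ) - s)) := by
      rw [← Real.rpow_natCast, ← Real.rpow_add hc0]
      congr 1
      ring
    rw [e1, e2] at h4
    have h5 : (c : ℝ) ^ r * 1 ≤ (c : ℝ) ^ r * (A * (1 / (c : ℝ)) + B * (c : ℝ) ^ (-((r : ℝ) - s))) := by
      calc (c : ℝ) ^ r * 1 = (c : ℝ) ^ r := mul_one _
        _ ≤ _ := h4
        _ = _ := by ring
    exact le_of_mul_le_mul_left h5 hcr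
  have hlim : Tendsto (fun c : ℕ => A * (1 / (c : ℝ)) + B * (c : ℝ) ^ (-((r : ℝ) - s))) atTop (𝓝 (A * 0 + B * 0)) := by
    refine (tendsto_one_div_atTop_nhds_zero_nat.const_mul A).add (Tendsto.const_mul B ?_)
    exact (tendsto_rpow_neg_atTop (by linarith : 0 < (r : ℝ) - s)).comp tendsto_natCast_atTop_atTop
  have h0 : A * 0 + B * 0 < 1 := by simp
  have hev := (hlim.eventually (gt_mem_nhds h0)).and (eventually_ge_atTop 1)
  obtain ⟨c, hc1, hc2⟩ := hev.exists
  have := key2 c hc2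
  linarith

/-- **Gal's conjecture is equivalent to a power saving over the trivial bound.** -/
theorem result (𝒮 : ∀ (V : Type) [Fintype V], Finset (Finset V) → ℕ → Prop)
    (hface : ∀ (V : Type) [Fintype V] (S : Finset (Finset V)) (d : ℕ), 𝒮 V S d → ∀ A ∈ S, A.card ≤ d)
    (hjoin : ∀ (V : Type) [Fintype V] (S : Finset (Finset V)) (d : ℕ), 𝒮 V S d → ∀ c : ℕ, 1 ≤ c →
      𝒮 (V ⊕ ZMod (c + 4)) (join S (polygon c)) (d + 2)) (e : ℕ) :
    -- (1)
    (∀ (K I : ℕ) (s C : ℝ), 0 ≤ s → s < (I : ℝ) - K →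
      (∀ (V : Type) [Fintype V] (S : Finset (Finset V)) (g : ℤ[X]), 𝒮 V S (2 * I + e) →
        IsGamma (2 * I + e) S g → -(C * (Fintype.card V : ℝ) ^ s) ≤ g.coeff I) →
      ∀ i ≤ K, ∀ (V : Type) [Fintype V] (S : Finset (Finset V)) (g : ℤ[X]), 𝒮 V S (2 * i + e) →
        IsGamma (2 * i + e) S g → 0 ≤ g.coeff i) ∧
    -- (2)
    ((∀ (i : ℕ) (V : Type) [Fintype V] (S : Finset (Finset V)) (g : ℤ[X]), 𝒮 V S (2 * i + e) →
        IsGamma (2 * i + e) S g → 0 ≤ g.coeff i) ↔
      ∀ K : ℕ, ∃ (I : ℕ) (s C : ℝ), 0 ≤ s ∧ s < (I : ℝ) - K ∧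
        ∀ (V : Type) [Fintype V] (S : Finset (Finset V)) (g : ℤ[X]), 𝒮 V S (2 * I + e) →
          IsGamma (2 * I + e) S g → -(C * (Fintype.card V : ℝ) ^ s) ≤ g.coeff I) ∧
    -- (3)
    (∀ θ : ℝ, 0 ≤ θ → θ < 1 →
      (∀ I₀ : ℕ, ∃ I ≥ I₀, ∃ C : ℝ, ∀ (V : Type) [Fintype V] (S : Finset (Finset V)) (g : ℤ[X]), 𝒮 V S (2 * I + e) →
        IsGamma (2 * I + e) S g → -(C * (Fintype.card V : ℝ) ^ (θ * I)) ≤ g.coeff I) →
      ∀ (i : ℕ) (V : Type) [Fintype V] (S : Finset (Finset V)) (g : ℤ[X]), 𝒮 V S (2 * i + e) →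
        IsGamma (2 * i + e) S g → 0 ≤ g.coeff i) := by
  refine ⟨fun K I s C hs0 hs h i hi V _ S g hS hg => core 𝒮 hface hjoin hs0 hs h hi hS hg,
    ⟨fun h K => ⟨K + 1, 0, 0, le_rfl, by push_cast; linarith, fun V _ S g hS hg => ?_⟩,
      fun h i V _ S g hS hg => ?_⟩, fun θ hθ0 hθ1 h i V _ S g hS hg => ?_⟩
  · rw [zero_mul, neg_zero]
    exact_mod_cast h (K + 1) V S g hS hg
  · obtain ⟨I, s, C, h1, h2, h3⟩ := h i
    exact core 𝒮 hface hjoin h1 h2 h3 le_rfl hS hg
  · obtain ⟨I₀, hI₀⟩ := exists_nat_gt ((i : ℝ) / (1 - θ))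
    obtain ⟨I, hI, C, hC⟩ := h I₀
    have h1 : (i : ℝ) / (1 - θ) < I := lt_of_lt_of_le hI₀ (by exact_mod_cast hI)
    rw [div_lt_iff₀ (by linarith)] at h1
    exact core 𝒮 hface hjoin (K := i) (by positivity) (by linarith) hC le_rfl hS hg

end Pool.Agent.Results.MP_19e880_co.PowerSaving
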