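import Pool.Agent.Q250.GL.Ratio

/-!
# Gal's conjecture is equivalent to `(i + 1) γ_{i+1} ≤ (γ₁ + 4 i) γ_i`

Let `S` be a flag homology `d`-sphere over a field `k` (rank `d + 1`) with `f₀` vertices, `γ₁ = f₀ - 2 (d + 1)`, and put
`ρ_i(S) = (γ₁ + 4 i) γ_i - (i + 1) γ_{i+1}` (with `γ_{i+1} = 0` outside the range `i + 1 ≤ (d + 1) / 2`).

* If a real linear functional `∑ a_i γ_i` is at least `- o(f₀)` on the flag homology `d`-spheres, then `∑ a_i ρ_i ≥ 0` for
  each of them.  (`f₀ ∑ a_i γ_i(S) - ∑_v ∑ a_i γ_i(lk v) = ∑ a_i ρ_i(S)`: the value at `S` is at least the mean of the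
  values at the vertex links.)
* In particular `γ_i ≥ 0` for all flag homology `d`-spheres implies `(i + 1) γ_{i+1} ≤ (γ₁ + 4 i) γ_i` for all of them,
  and Gal's conjecture in dimension `d` is equivalent to these inequalities for all `i`.
* Unconditionally, from the inequality `4 γ₂ + 3 (d - 1) γ₁ ≥ 0` of the starting files: a sharper lower bound for `γ₂`
  for `d ≥ 4`, and an upper bound for `γ₃` for `d ≥ 5`.

Proof.  By repeated doubling along vertex links the functional satisfies `2 ℓ(S) ≥ ℓ(lk v) + ℓ(lk u)` for all vertices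
`v`, `u` which are not joined (hand-in `CrossPolytopeDichotomy`).  By Hall's theorem there is a permutation of the vertices
which moves each vertex to one not joined to it; sum over it and compute `∑_v γ_i(lk v) = (2 (d + 1) - 4 i) γ_i +
(i + 1) γ_{i+1}`.
-/

set_option autoImplicit false

namespace Pool.Agent.Results.MP_19e880_co.RatioInequalities

open Pool.Agent.W497.FS Pool.Agent.Q250.GL

theorem result (k : Type) [Field k] (d : ℕ) :
    -- (1) linear functionals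
    (∀ a : ℕ → ℝ, AlmostNonneg k (d + 1) 1 a →
      ∀ (n : ℕ) (S : Finset (Finset (Fin n))) (γ : ℕ → ℤ), IsFlagSphere k (d + 1) S → IsGamma (d + 1) S γ →
        0 ≤ ∑ i ∈ Finset.range ((d + 1) / 2 + 1), a i * ratio (d + 1) (numVert S) γ i) ∧
    -- (2) a single index
    (∀ i ≤ (d + 1) / 2,
      (∀ (n : ℕ) (S : Finset (Finset (Fin n))) (γ : ℕ → ℤ), IsFlagSphere k (d + 1) S → IsGamma (d + 1) S γ →
        0 ≤ γ i) →
      ∀ (n : ℕ) (S : Finset (Finset (Fin n))) (γ : ℕ → ℤ), IsFlagSphere k (d + 1) S → IsGamma (d + 1) S γ →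
        0 ≤ ratio (d + 1) (numVert S) γ i) ∧
    -- (3) all indices
    ((∀ (n : ℕ) (S : Finset (Finset (Fin n))) (γ : ℕ → ℤ), IsFlagSphere k (d + 1) S → IsGamma (d + 1) S γ →
        ∀ i ≤ (d + 1) / 2, 0 ≤ γ i) ↔
      ∀ (n : ℕ) (S : Finset (Finset (Fin n))) (γ : ℕ → ℤ), IsFlagSphere k (d + 1) S → IsGamma (d + 1) S γ →
        ∀ i ≤ (d + 1) / 2, 0 ≤ ratio (d + 1) (numVert S) γ i) ∧
    -- (4) unconditional inequalities
    (∀ (n : ℕ) (S : Finset (Finset (Fin n))) (γ : ℕ → ℤ), IsFlagSphere k (d + 1) S → IsGamma (d + 1) S γ →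
      (4 ≤ d → -(3 * ((d : ℤ) - 1) * ((numVert S : ℤ) - 2) * γ 1) ≤ (4 * (numVert S : ℤ) - 6) * γ 2) ∧
      (5 ≤ d → 12 * γ 3 ≤ 3 * ((d : ℤ) - 1) * ((γ 1 + 4) * γ 1 - 2 * γ 2) + 4 * (γ 1 + 8) * γ 2)) := by
  refine ⟨fun a ha n S γ hS hγ => ?_, fun i hi h n S γ hS hγ => ratio_of_gal hi h hS hγ, ⟨fun h n S γ hS hγ i hi =>
    ratio_of_gal hi (fun n S γ hS hγ => h n S γ hS hγ i hi) hS hγ, fun h n S γ hS hγ =>
    gal_of_ratio hS hγ (h n S γ hS hγ)⟩, fun n S γ hS hγ => ⟨fun hd => gamma_two_improved hd hS hγ,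
    fun hd => gamma_three hd hS hγ⟩⟩
  have := mean_ineq (twoVert_of_almost (j := 0) ha) hS hγ
  simpa using this

end Pool.Agent.Results.MP_19e880_co.RatioInequalities
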